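import Pool.Agent.H238.PH.Spec

set_option autoImplicit false

namespace Pool.Agent.H51.PH

open Pool.Agent.H238.PH

theorem t_K : S_K := by
  intro p β hp hp2 hβ h
  unfold CC at h
  have hp0 : 0 < p := by linarith
  have key : 1 + 2 / p < β := by
    by_contra hcon
    push Not at hcon
    have h1 : β * p ≤ p + 2 := by
      have := mul_le_mul_of_nonneg_right hcon hp0.le
      calc β * p ≤ (1 + 2 / p) * p := this
        _ = p + 2 := by field_simp
    have h2 : 0 < (p - 2) ^ 2 := by
      have : p - 2 ≠ 0 := sub_ne_zero.2 hp2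
      positivity
    have h3 : 4 * p ^ 2 ≤ (β * p) * ((p - 1) * (β * p) + (2 - p) * p) := by
      have := mul_le_mul_of_nonneg_right h (by positivity : 0 ≤ p ^ 2)
      nlinarith [this]
    have h4 : 0 < β * p := by positivity
    have h5 : (β * p) * ((p - 1) * (β * p) + (2 - p) * p)
        ≤ (p + 2) * ((p - 1) * (p + 2) + (2 - p) * p) := by
      have h6 : 0 ≤ (p + 2 - β * p) := by linarith
      have h7 : p < β * p := by nlinarith
      nlinarith [mul_nonneg h6 (mul_nonneg (by linarith : (0:ℝ) ≤ p - 1) (by linarith : (0:ℝ) ≤ β * p + p + 2 - p)), mul_nonneg h6 hp0.le, mul_nonneg h6 (by linarith : (0:ℝ) ≤ p - 1)]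
    nlinarith
  refine ⟨key, ?_⟩
  have h8 : 2 / p < β - 1 := by linarith
  have h9 := mul_lt_mul_of_pos_right h8 hp0
  have h10 : 2 / p * p = 2 := by field_simp
  linarith

end Pool.Agent.H51.PH
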